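import Mathlib

/-!
# Countable weak π-bases for unit balls of spaces with a 1-unconditional basis
-/

set_option autoImplicit false
open Filter Topology

namespace Pool.Agent.T2H09.PiBase

variable {X : Type} [NormedAddCommGroup X] [NormedSpace ℝ X]

/-- 1-unconditionality on finite sums. -/
def Unc (e : ℕ → X) : Prop := ∀ (s : Finset ℕ) (a ε : ℕ → ℝ), (∀ n, ε n = 1 ∨ ε n = -1) →
  ‖∑ n ∈ s, (ε n * a n) • e n‖ ≤ ‖∑ n ∈ s, a n • e n‖

/-- The vector with given finitely supported coordinates. -/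
noncomputable def T (e : ℕ → X) : (ℕ →₀ ℝ) →ₗ[ℝ] X := Finsupp.linearCombination ℝ e

/-- The positive functional with coordinates `φ` evaluated at `|a|`. -/
noncomputable def G (φ : ℕ → ℝ) (a : ℕ →₀ ℝ) : ℝ := a.sum fun n r => |r| * φ n

theorem T_eq (e : ℕ → X) (a : ℕ →₀ ℝ) {s : Finset ℕ} (hs : a.support ⊆ s) :
    T e a = ∑ n ∈ s, a n • e n := by
  unfold T
  rw [Finsupp.linearCombination_apply]
  exact Finsupp.sum_of_support_subset a hs _ (fun i _ => zero_smul _ _)

theorem G_eq (φ : ℕ → ℝ) (a : ℕ →₀ ℝ) {s : Finset ℕ} (hs : a.support ⊆ s) :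
    G φ a = ∑ n ∈ s, |a n| * φ n := by
  unfold G
  exact Finsupp.sum_of_support_subset a hs _ (fun i _ => by simp)

theorem G_nonneg {φ : ℕ → ℝ} (hφ : ∀ n, 0 ≤ φ n) (a : ℕ →₀ ℝ) : 0 ≤ G φ a := by
  rw [G_eq φ a subset_rfl]
  exact Finset.sum_nonneg fun n _ => mul_nonneg (abs_nonneg _) (hφ n)

theorem G_smul (φ : ℕ → ℝ) (c : ℝ) (a : ℕ →₀ ℝ) : G φ (c • a) = |c| * G φ a := by
  rw [G_eq φ (c • a) Finsupp.support_smul, G_eq φ a subset_rfl, Finset.mul_sum]
  refine Finset.sum_congr rfl fun n _ => ?_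
  rw [Finsupp.smul_apply, smul_eq_mul, abs_mul, mul_assoc]

theorem G_neg (φ : ℕ → ℝ) (a : ℕ →₀ ℝ) : G φ (-a) = G φ a := by
  have := G_smul φ (-1) a
  simpa using this

theorem G_add {φ : ℕ → ℝ} {a b : ℕ →₀ ℝ} (h : Disjoint a.support b.support) :
    G φ (a + b) = G φ a + G φ b := by
  unfold G
  exact Finsupp.sum_add_index_of_disjoint h _

theorem G_sub {φ : ℕ → ℝ} {a b : ℕ →₀ ℝ} (h : Disjoint a.support b.support) :
    G φ (a - b) = G φ a + G φ b := by
  rw [sub_eq_add_neg, G_add (by rwa [Finsupp.support_neg]), G_neg]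

theorem norm_sub_le_norm_add {e : ℕ → X} (hunc : Unc e) {a b : ℕ →₀ ℝ}
    (h : Disjoint a.support b.support) : ‖T e a - T e b‖ ≤ ‖T e a + T e b‖ := by
  classical
  rw [← map_sub, ← map_add]
  have hs1 : (a - b).support ⊆ a.support ∪ b.support := Finsupp.support_sub
  have hs2 : (a + b).support ⊆ a.support ∪ b.support := Finsupp.support_add
  rw [T_eq e (a - b) hs1, T_eq e (a + b) hs2]
  have := hunc (a.support ∪ b.support) (fun n => (a + b) n)
    (fun n => if n ∈ b.support then -1 else 1) (fun n => by split_ifs <;> simp)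
  refine le_trans (le_of_eq ?_) this
  congr 1
  refine Finset.sum_congr rfl fun n _ => ?_
  congr 1
  by_cases hn : n ∈ b.support
  · have ha : a n = 0 := by
      by_contra hcon
      exact Finset.disjoint_left.1 h (Finsupp.mem_support_iff.2 hcon) hn
    rw [if_pos hn]
    simp [ha]
  · have hb : b n = 0 := by simpa using hn
    rw [if_neg hn]
    simp [hb]

theorem norm_le_norm_add {e : ℕ → X} (hunc : Unc e) {a b : ℕ →₀ ℝ}
    (h : Disjoint a.support b.support) : ‖T e a‖ ≤ ‖T e a + T e b‖ := by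
  have h1 := norm_sub_le_norm_add hunc h
  have h2 : T e a = (1 / 2 : ℝ) • ((T e a + T e b) + (T e a - T e b)) := by
    rw [add_add_sub_cancel, ← two_smul ℝ (T e a), smul_smul]
    norm_num
  have h3 := norm_add_le (T e a + T e b) (T e a - T e b)
  calc ‖T e a‖ = ‖(1 / 2 : ℝ) • ((T e a + T e b) + (T e a - T e b))‖ := by rw [← h2]
    _ = (1 / 2) * ‖(T e a + T e b) + (T e a - T e b)‖ := by
        rw [norm_smul]
        norm_num
    _ ≤ _ := by linarith

/-- `|f|` is bounded. -/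
theorem sum_abs_le {e : ℕ → X} (hunc : Unc e) (f : StrongDual ℝ X) (a : ℕ →₀ ℝ) :
    G (fun n => |f (e n)|) a ≤ ‖f‖ * ‖T e a‖ := by
  classical
  set ε : ℕ → ℝ := fun n => if 0 ≤ a n * f (e n) then 1 else -1 with hε
  have h1 := hunc a.support (fun n => a n) ε (fun n => by simp only [hε]; split_ifs <;> simp)
  rw [← T_eq e a subset_rfl] at h1
  have h2 : G (fun n => |f (e n)|) a = f (∑ n ∈ a.support, (ε n * a n) • e n) := by
    rw [G_eq _ a subset_rfl, map_sum]
    refine Finset.sum_congr rfl fun n _ => ?_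
    rw [map_smul, smul_eq_mul, ← abs_mul, mul_assoc]
    simp only [hε]
    split_ifs with h
    · rw [abs_of_nonneg h, one_mul]
    · rw [abs_of_neg (not_le.1 h), neg_one_mul]
  rw [h2]
  calc f (∑ n ∈ a.support, (ε n * a n) • e n) ≤ ‖f (∑ n ∈ a.support, (ε n * a n) • e n)‖ :=
        le_abs_self _
    _ ≤ ‖f‖ * ‖∑ n ∈ a.support, (ε n * a n) • e n‖ := f.le_opNorm _
    _ ≤ _ := by gcongr

/-- The functional `∑ |f|` over a finite set of functionals. -/
noncomputable def phi (e : ℕ → X) (I : Finset (StrongDual ℝ X)) (n : ℕ) : ℝ := ∑ f ∈ I, |f (e n)|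

theorem phi_nonneg (e : ℕ → X) (I : Finset (StrongDual ℝ X)) (n : ℕ) : 0 ≤ phi e I n :=
  Finset.sum_nonneg fun _ _ => abs_nonneg _

theorem G_phi (e : ℕ → X) (I : Finset (StrongDual ℝ X)) (a : ℕ →₀ ℝ) :
    G (phi e I) a = ∑ f ∈ I, G (fun n => |f (e n)|) a := by
  simp only [G_eq _ a subset_rfl, phi, Finset.mul_sum]
  exact Finset.sum_comm

theorem G_phi_le {e : ℕ → X} (hunc : Unc e) (I : Finset (StrongDual ℝ X)) (a : ℕ →₀ ℝ) :
    G (phi e I) a ≤ (∑ f ∈ I, ‖f‖) * ‖T e a‖ := by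
  rw [G_phi, Finset.sum_mul]
  exact Finset.sum_le_sum fun f _ => sum_abs_le hunc f a

theorem abs_apply_le {e : ℕ → X} {I : Finset (StrongDual ℝ X)} {f : StrongDual ℝ X} (hf : f ∈ I)
    (a : ℕ →₀ ℝ) : |f (T e a)| ≤ G (phi e I) a := by
  rw [G_phi]
  have h1 : |f (T e a)| ≤ G (fun n => |f (e n)|) a := by
    rw [G_eq _ a subset_rfl, T_eq e a subset_rfl, map_sum]
    refine (Finset.abs_sum_le_sum_abs _ _).trans (le_of_eq ?_)
    refine Finset.sum_congr rfl fun n _ => ?_
    rw [map_smul, smul_eq_mul, abs_mul]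
  refine h1.trans ?_
  exact Finset.single_le_sum (f := fun f : StrongDual ℝ X => G (fun n => |f (e n)|) a)
    (fun g _ => G_nonneg (fun n => abs_nonneg _) a) hf


/-- The main step. -/
theorem core {e : ℕ → X} (hunc : Unc e) (I : Finset (StrongDual ℝ X)) {a₀ : ℕ →₀ ℝ} {θ η : ℝ}
    (hθ : 0 < θ) (hη : 0 < η) (h0 : ‖T e a₀‖ ≤ 1 - θ) :
    ∃ (a₁ : ℕ →₀ ℝ) (N₂ : ℕ) (δ : ℝ), 0 < δ ∧ (∀ n ∈ a₁.support, n < N₂) ∧ ‖T e a₁‖ ≤ 1 ∧
      (∀ f ∈ I, |f (T e a₁) - f (T e a₀)| ≤ η) ∧
      ∀ z : ℕ →₀ ℝ, (∀ n ∈ z.support, N₂ ≤ n) → ‖T e a₁ + T e z‖ ≤ 1 + δ →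
        G (phi e I) z ≤ 3 * η := by
  classical
  set φ := phi e I with hφ
  have hφ0 : ∀ n, 0 ≤ φ n := phi_nonneg e I
  obtain ⟨N₀, hN₀⟩ : ∃ N₀ : ℕ, ∀ n ∈ a₀.support, n < N₀ :=
    ⟨a₀.support.sup id + 1, fun n hn => Nat.lt_succ_of_le (Finset.le_sup (f := id) hn)⟩
  have hdis : ∀ {w : ℕ →₀ ℝ} {N : ℕ}, N₀ ≤ N → (∀ n ∈ w.support, N ≤ n) →
      Disjoint a₀.support w.support := by
    intro w N hN hw
    rw [Finset.disjoint_left]
    intro n h1 h2
    have := hN₀ n h1
    have := hw n h2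
    omega
  set A : ℕ → Set ℝ := fun N => {r | ∃ w : ℕ →₀ ℝ, (∀ n ∈ w.support, N₀ + N ≤ n) ∧
    ‖T e a₀ + T e w‖ ≤ 1 ∧ r = G φ w} with hA
  have hTw : ∀ {w : ℕ →₀ ℝ} {N : ℕ}, (∀ n ∈ w.support, N₀ + N ≤ n) → ‖T e a₀ + T e w‖ ≤ 1 →
      ‖T e w‖ ≤ 1 := by
    intro w N hw h1
    have h2 := norm_le_norm_add hunc (hdis (by omega) hw).symm
    rw [add_comm] at h2
    exact h2.trans h1
  have hbdd : ∀ N, BddAbove (A N) := by
    intro N
    refine ⟨∑ f ∈ I, ‖f‖, ?_⟩
    rintro r ⟨w, hw, h1, rfl⟩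
    refine (G_phi_le hunc I w).trans ?_
    have h3 : 0 ≤ ∑ f ∈ I, ‖f‖ := Finset.sum_nonneg fun _ _ => norm_nonneg _
    calc _ ≤ (∑ f ∈ I, ‖f‖) * 1 := by
          gcongr
          exact hTw hw h1
      _ = _ := mul_one _
  have hzero : ∀ N, (0 : ℝ) ∈ A N := by
    intro N
    refine ⟨0, by simp, ?_, ?_⟩
    · rw [map_zero, add_zero]
      linarith
    · simp [G]
  have hsn : ∀ N, 0 ≤ sSup (A N) := fun N => le_csSup (hbdd N) (hzero N)
  have hbb : BddBelow (Set.range fun N => sSup (A N)) := by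
    refine ⟨0, ?_⟩
    rintro r ⟨N, rfl⟩
    exact hsn N
  set s := ⨅ N, sSup (A N) with hs
  have hs0 : 0 ≤ s := le_ciInf hsn
  obtain ⟨N₁, hN₁⟩ : ∃ N₁, sSup (A N₁) < s + η := exists_lt_of_ciInf_lt (by linarith)
  have hW : ∀ N, ∃ w : ℕ →₀ ℝ, (∀ n ∈ w.support, N₀ + N ≤ n) ∧ ‖T e a₀ + T e w‖ ≤ 1 ∧
      s - η < G φ w := by
    intro N
    have h1 : s - η < sSup (A N) := by
      have := ciInf_le hbb N
      linarith
    obtain ⟨r, ⟨w, h2, h3, rfl⟩, h4⟩ := exists_lt_of_lt_csSup ⟨0, hzero N⟩ h1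
    exact ⟨w, h2, h3, h4⟩
  choose W hW1 hW2 hW3 using hW
  -- a Cauchy subsequence
  set v : ℕ → (I → ℝ) := fun N f => f.1 (T e (W N)) with hv
  have hvb : ∀ N, v N ∈ Metric.closedBall (0 : I → ℝ) (∑ f ∈ I, ‖f‖) := by
    intro N
    rw [mem_closedBall_zero_iff]
    have h3 : 0 ≤ ∑ f ∈ I, ‖f‖ := Finset.sum_nonneg fun _ _ => norm_nonneg _
    rw [pi_norm_le_iff_of_nonneg h3]
    intro f
    calc ‖f.1 (T e (W N))‖ ≤ ‖f.1‖ * ‖T e (W N)‖ := f.1.le_opNorm _
      _ ≤ ‖f.1‖ * 1 := by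
          gcongr
          exact hTw (hW1 N) (hW2 N)
      _ = ‖f.1‖ := mul_one _
      _ ≤ _ := Finset.single_le_sum (f := fun f : StrongDual ℝ X => ‖f‖)
          (fun _ _ => norm_nonneg _) f.2
  obtain ⟨l, -, ψ, hψ, hlim⟩ := (isCompact_closedBall (0 : I → ℝ) _).tendsto_subseq hvb
  obtain ⟨k₁, hk₁⟩ := Metric.cauchySeq_iff.1 hlim.cauchySeq η hη
  set i := ψ (max k₁ N₁) with hi
  have hiN : N₁ ≤ i := (le_max_right _ _).trans hψ.le_apply
  obtain ⟨B, hB⟩ : ∃ B : ℕ, ∀ n ∈ (W i).support, n < B :=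
    ⟨(W i).support.sup id + 1, fun n hn => Nat.lt_succ_of_le (Finset.le_sup (f := id) hn)⟩
  set j := ψ (max k₁ (max N₁ B)) with hj
  have hjN : max N₁ B ≤ j := (le_max_right _ _).trans hψ.le_apply
  have hclose : ∀ f ∈ I, |f (T e (W j)) - f (T e (W i))| < η := by
    intro f hf
    have h1 := hk₁ (max k₁ (max N₁ B)) (le_max_left _ _) (max k₁ N₁) (le_max_left _ _)
    have h2 := (dist_pi_lt_iff hη).1 h1 ⟨f, hf⟩
    exact h2
  set wa := W i with hwa
  set wb := W j with hwb
  have hab : Disjoint wa.support wb.support := by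
    rw [Finset.disjoint_left]
    intro n h1 h2
    have h3 := hB n h1
    have h4 := hW1 j n h2
    have h5 : B ≤ j := (le_max_right _ _).trans hjN
    omega
  set y : ℕ →₀ ℝ := (1 / 2 : ℝ) • (wa - wb) with hy
  have hysupp : ∀ n ∈ y.support, N₀ + N₁ ≤ n := by
    intro n hn
    have h1 : n ∈ (wa - wb).support := Finsupp.support_smul hn
    have h2 := Finsupp.support_sub h1
    rw [Finset.mem_union] at h2
    rcases h2 with h2 | h2
    · have := hW1 i n h2
      omega
    · have := hW1 j n h2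
      have h5 : N₁ ≤ j := (le_max_left _ _).trans hjN
      omega
  have hGy : s - η < G φ y := by
    rw [hy, G_smul, G_sub hab]
    have h1 := hW3 i
    have h2 := hW3 j
    rw [abs_of_pos (by norm_num)]
    linarith
  have hTy : T e y = (1 / 2 : ℝ) • (T e wa - T e wb) := by rw [hy, map_smul, map_sub]
  have ha1 : ‖T e a₀ + T e y‖ ≤ 1 := by
    have h1 : ‖T e a₀ - T e wb‖ ≤ 1 :=
      (norm_sub_le_norm_add hunc (hdis (by omega) (hW1 j))).trans (hW2 j)
    have h2 : T e a₀ + T e y = (1 / 2 : ℝ) • ((T e a₀ + T e wa) + (T e a₀ - T e wb)) := by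
      rw [hTy]
      module
    have h3 := norm_add_le (T e a₀ + T e wa) (T e a₀ - T e wb)
    have h4 := hW2 i
    rw [h2, norm_smul]
    norm_num
    linarith
  refine ⟨a₀ + y, max (N₀ + N₁) ((a₀ + y).support.sup id + 1), η * θ / (s + η), by positivity,
    fun n hn => ?_, ?_, ?_, ?_⟩
  · refine lt_max_of_lt_right ?_
    exact Nat.lt_succ_of_le (Finset.le_sup (f := id) hn)
  · rw [map_add]
    exact ha1
  · intro f hf
    have h1 := hclose f hf
    rw [map_add, map_add, add_sub_cancel_left, hTy, map_smul, map_sub, smul_eq_mul, abs_mul,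
      abs_sub_comm]
    have h2 : |(1 / 2 : ℝ)| = 1 / 2 := abs_of_pos (by norm_num)
    rw [h2]
    have := abs_nonneg (f (T e wb) - f (T e wa))
    linarith
  · intro z hz hnz
    set δ := η * θ / (s + η) with hδ
    have hδ0 : 0 < δ := by positivity
    have hyz : Disjoint y.support z.support := by
      rw [Finset.disjoint_left]
      intro n h1 h2
      have h3 := hz n h2
      have h4 : n ∈ (a₀ + y).support := by
        rw [Finsupp.mem_support_iff, Finsupp.add_apply]
        have h5 : a₀ n = 0 := by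
          by_contra hcon
          have := hN₀ n (Finsupp.mem_support_iff.2 hcon)
          have := hysupp n h1
          omega
        rw [h5, zero_add]
        exact Finsupp.mem_support_iff.1 h1
      have h5 : n ≤ (a₀ + y).support.sup id := Finset.le_sup (f := id) h4
      have h6 := (le_max_right _ _).trans h3
      omega
    set t := θ / (θ + δ) with ht
    have ht0 : 0 < t := by positivity
    have ht1 : t ≤ 1 := by
      rw [ht, div_le_one (by positivity)]
      linarith
    have hmem : G φ (t • (y + z)) ∈ A N₁ := by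
      refine ⟨t • (y + z), ?_, ?_, rfl⟩
      · intro n hn
        have h1 := Finsupp.support_add (Finsupp.support_smul hn)
        rw [Finset.mem_union] at h1
        rcases h1 with h1 | h1
        · exact hysupp n h1
        · exact (le_max_left _ _).trans (hz n h1)
      · have h1 : T e a₀ + T e (t • (y + z)) = t • (T e (a₀ + y) + T e z) + (1 - t) • T e a₀ := by
          rw [map_smul, map_add, map_add]
          module
        rw [h1]
        calc _ ≤ ‖t • (T e (a₀ + y) + T e z)‖ + ‖(1 - t) • T e a₀‖ := norm_add_le _ _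
          _ = t * ‖T e (a₀ + y) + T e z‖ + (1 - t) * ‖T e a₀‖ := by
              rw [norm_smul, norm_smul, Real.norm_of_nonneg ht0.le,
                Real.norm_of_nonneg (by linarith)]
          _ ≤ t * (1 + δ) + (1 - t) * (1 - θ) := by
              gcongr
          _ = 1 := by
              have h5 : t * (θ + δ) = θ := by
                rw [ht]
                field_simp
              linarith
    have h1 := le_csSup (hbdd N₁) hmem
    rw [G_smul, G_add hyz, abs_of_pos ht0] at h1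
    have h2 : t * (G φ y + G φ z) < s + η := lt_of_le_of_lt h1 hN₁
    have h3 : G φ y + G φ z < (s + η) / t := by
      rw [lt_div_iff₀ ht0]
      linarith
    have h4 : (s + η) / t = s + 2 * η := by
      rw [ht, hδ]
      field_simp
      ring
    linarith

/-- The truncation of the expansion of `x` to the finite set `s`. -/
noncomputable def cut (c : ℕ → StrongDual ℝ X) (s : Finset ℕ) (x : X) : ℕ →₀ ℝ :=
  Finsupp.indicator s fun n _ => c n x

theorem cut_apply (c : ℕ → StrongDual ℝ X) (s : Finset ℕ) (x : X) (n : ℕ) :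
    cut c s x n = if n ∈ s then c n x else 0 := by
  unfold cut
  split_ifs with h
  · exact Finsupp.indicator_of_mem h _
  · exact Finsupp.indicator_of_notMem h _

theorem cut_support (c : ℕ → StrongDual ℝ X) (s : Finset ℕ) (x : X) : (cut c s x).support ⊆ s := by
  intro n hn
  by_contra h
  rw [Finsupp.mem_support_iff, cut_apply, if_neg h] at hn
  exact hn rfl

theorem cut_add (c : ℕ → StrongDual ℝ X) {s t : Finset ℕ} (h : s ⊆ t) (x : X) :
    cut c t x = cut c s x + cut c (t \ s) x := by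
  ext n
  rw [Finsupp.add_apply, cut_apply, cut_apply, cut_apply]
  by_cases h3 : n ∈ s
  · have h4 : n ∈ t := h h3
    have h5 : n ∉ t \ s := fun h6 => (Finset.mem_sdiff.1 h6).2 h3
    rw [if_pos h3, if_pos h4, if_neg h5, add_zero]
  · by_cases h4 : n ∈ t
    · have h5 : n ∈ t \ s := Finset.mem_sdiff.2 ⟨h4, h3⟩
      rw [if_neg h3, if_pos h4, if_pos h5, zero_add]
    · have h5 : n ∉ t \ s := fun h6 => h4 (Finset.mem_sdiff.1 h6).1
      rw [if_neg h3, if_neg h4, if_neg h5, zero_add]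

theorem T_cut (e : ℕ → X) (c : ℕ → StrongDual ℝ X) (s : Finset ℕ) (x : X) :
    T e (cut c s x) = ∑ n ∈ s, c n x • e n := by
  rw [T_eq e _ (cut_support c s x)]
  refine Finset.sum_congr rfl fun n hn => ?_
  rw [cut_apply, if_pos hn]

/-- The weak neighbourhood statement. -/
theorem nbhd {e : ℕ → X} (hunc : Unc e) {c : ℕ → StrongDual ℝ X}
    (hc : ∀ x, HasSum (fun n => c n x • e n) x)
    (I : Finset (StrongDual ℝ X)) {x : X} (hx : ‖x‖ ≤ 1) {ε : ℝ} (hε : 0 < ε) :
    ∃ (a : ℕ →₀ ℝ) (N : ℕ) (r : ℝ), 0 < r ∧ ‖T e a‖ ≤ 1 ∧ ∀ u : X, ‖u‖ ≤ 1 →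
      (∀ n < N, |c n u - a n| < r) → ∀ f ∈ I, |f u - f x| < ε := by
  classical
  set M : ℝ := 1 + ∑ f ∈ I, ‖f‖ with hM
  have hM0 : 0 ≤ ∑ f ∈ I, ‖f‖ := Finset.sum_nonneg fun _ _ => norm_nonneg _
  have hM1 : 0 < M := by linarith
  have hfM : ∀ f ∈ I, ‖f‖ ≤ M := by
    intro f hf
    have h1 : ‖f‖ ≤ ∑ g ∈ I, ‖g‖ :=
      Finset.single_le_sum (f := fun f : StrongDual ℝ X => ‖f‖) (fun _ _ => norm_nonneg _) hf
    linarith
  -- partial sums are contractions
  have hP : ∀ (s : Finset ℕ) (u : X), ‖T e (cut c s u)‖ ≤ ‖u‖ := by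
    intro s u
    have h1 : Tendsto (fun t : Finset ℕ => ‖∑ n ∈ t, c n u • e n‖) atTop (𝓝 ‖u‖) := (hc u).norm
    refine ge_of_tendsto h1 ?_
    filter_upwards [eventually_ge_atTop s] with t ht
    have h2 : cut c t u = cut c s u + cut c (t \ s) u := cut_add c ht u
    rw [← T_cut e c t u, h2, map_add]
    apply norm_le_norm_add hunc
    refine Finset.disjoint_of_subset_left (cut_support c s u)
      (Finset.disjoint_of_subset_right (cut_support c (t \ s) u) Finset.disjoint_sdiff)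
  -- the starting point
  set θ : ℝ := min (1 / 2) (ε / (8 * M)) with hθ
  have hθ0 : 0 < θ := by positivity
  have hθ1 : θ ≤ 1 / 2 := min_le_left _ _
  have hθ2 : θ * M ≤ ε / 8 := by
    have : θ ≤ ε / (8 * M) := min_le_right _ _
    rw [le_div_iff₀ (by positivity)] at this
    linarith
  obtain ⟨s₀, hs₀⟩ : ∃ s₀ : Finset ℕ, ‖T e (cut c s₀ x) - x‖ < θ := by
    have h1 := Metric.tendsto_atTop.1 (hc x) θ hθ0
    obtain ⟨s₀, h2⟩ := h1
    refine ⟨s₀, ?_⟩
    have h3 := h2 s₀ le_rfl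
    rw [dist_eq_norm] at h3
    rw [T_cut]
    exact h3
  set a₀ : ℕ →₀ ℝ := (1 - θ) • cut c s₀ x with ha₀
  have hTa₀ : T e a₀ = (1 - θ) • T e (cut c s₀ x) := by rw [ha₀, map_smul]
  have h0 : ‖T e a₀‖ ≤ 1 - θ := by
    rw [hTa₀, norm_smul, Real.norm_of_nonneg (by linarith)]
    have := (hP s₀ x).trans hx
    nlinarith
  have hax : ‖T e a₀ - x‖ ≤ 2 * θ := by
    have h1 : T e a₀ - x = (T e (cut c s₀ x) - x) - θ • T e (cut c s₀ x) := by
      rw [hTa₀]
      module
    rw [h1]
    refine (norm_sub_le _ _).trans ?_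
    rw [norm_smul, Real.norm_of_nonneg hθ0.le]
    have := (hP s₀ x).trans hx
    nlinarith
  set η : ℝ := ε / 16 with hη
  have hη0 : 0 < η := by positivity
  obtain ⟨a₁, N₂, δ, hδ, hsupp, hn1, hfa, hz⟩ := core hunc I hθ0 hη0 h0
  set S : ℝ := 1 + ∑ n ∈ Finset.range N₂, ‖e n‖ with hS
  have hS0 : 0 ≤ ∑ n ∈ Finset.range N₂, ‖e n‖ := Finset.sum_nonneg fun _ _ => norm_nonneg _
  have hS1 : 0 < S := by linarith
  set r : ℝ := min (δ / S) (ε / (8 * M * S)) with hr
  have hr0 : 0 < r := by positivity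
  have hr1 : r * S ≤ δ := by
    have : r ≤ δ / S := min_le_left _ _
    rwa [le_div_iff₀ hS1] at this
  have hr2 : r * S * M ≤ ε / 8 := by
    have : r ≤ ε / (8 * M * S) := min_le_right _ _
    rw [le_div_iff₀ (by positivity)] at this
    linarith
  refine ⟨a₁, N₂, r, hr0, hn1, ?_⟩
  intro u hu hcu f hf
  -- the head
  have hhead : ‖T e (cut c (Finset.range N₂) u) - T e a₁‖ ≤ r * S := by
    rw [T_cut, T_eq e a₁ (s := Finset.range N₂) (fun n hn => Finset.mem_range.2 (hsupp n hn)),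
      ← Finset.sum_sub_distrib]
    refine (norm_sum_le _ _).trans ?_
    calc _ ≤ ∑ n ∈ Finset.range N₂, r * ‖e n‖ := by
          refine Finset.sum_le_sum fun n hn => ?_
          rw [← sub_smul, norm_smul]
          gcongr
          exact (hcu n (Finset.mem_range.1 hn)).le
      _ = r * ∑ n ∈ Finset.range N₂, ‖e n‖ := by rw [Finset.mul_sum]
      _ ≤ r * S := by
          gcongr
          linarith
  -- the tail
  have htail : ∀ t : Finset ℕ, Finset.range N₂ ⊆ t →
      |f (T e (cut c t u)) - f (T e (cut c (Finset.range N₂) u))| ≤ 3 * η := by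
    intro t ht
    set z := cut c (t \ Finset.range N₂) u with hzdef
    have h2 : cut c t u = cut c (Finset.range N₂) u + z := cut_add c ht u
    rw [h2, map_add, map_add, add_sub_cancel_left]
    refine (abs_apply_le hf z).trans ?_
    apply hz
    · intro n hn
      have h3 := cut_support c _ _ hn
      rw [Finset.mem_sdiff, Finset.mem_range, not_lt] at h3
      exact h3.2
    · have h3 : T e a₁ + T e z = T e (cut c t u) - (T e (cut c (Finset.range N₂) u) - T e a₁) := by
        rw [h2, map_add]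
        abel
      rw [h3]
      refine (norm_sub_le _ _).trans ?_
      have h4 := (hP t u).trans hu
      linarith
  have htail2 : |f u - f (T e (cut c (Finset.range N₂) u))| ≤ 3 * η := by
    have h1 : Tendsto (fun t : Finset ℕ => |f (∑ n ∈ t, c n u • e n) -
        f (T e (cut c (Finset.range N₂) u))|) atTop
        (𝓝 |f u - f (T e (cut c (Finset.range N₂) u))|) := by
      have h2 := (f.continuous.tendsto u).comp (hc u)
      exact (h2.sub_const _).abs
    refine le_of_tendsto h1 ?_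
    filter_upwards [eventually_ge_atTop (Finset.range N₂)] with t ht
    rw [← T_cut]
    exact htail t ht
  have hA : |f (T e (cut c (Finset.range N₂) u)) - f (T e a₁)| ≤ ε / 8 := by
    rw [← map_sub]
    calc _ ≤ ‖f‖ * ‖T e (cut c (Finset.range N₂) u) - T e a₁‖ := f.le_opNorm _
      _ ≤ M * (r * S) := by
          gcongr
          exact hfM f hf
      _ ≤ ε / 8 := by linarith
  have hB : |f (T e a₁) - f (T e a₀)| ≤ η := hfa f hf
  have hC : |f (T e a₀) - f x| ≤ ε / 4 := by
    rw [← map_sub]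
    calc _ ≤ ‖f‖ * ‖T e a₀ - x‖ := f.le_opNorm _
      _ ≤ M * (2 * θ) := by
          gcongr
          exact hfM f hf
      _ ≤ ε / 4 := by linarith
  have hD : f u - f x = (f u - f (T e (cut c (Finset.range N₂) u))) +
      (f (T e (cut c (Finset.range N₂) u)) - f (T e a₁)) + (f (T e a₁) - f (T e a₀)) +
      (f (T e a₀) - f x) := by ring
  rw [hD]
  have hE := abs_add_le ((f u - f (T e (cut c (Finset.range N₂) u))) +
      (f (T e (cut c (Finset.range N₂) u)) - f (T e a₁)) + (f (T e a₁) - f (T e a₀)))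
      (f (T e a₀) - f x)
  have hF := abs_add_le ((f u - f (T e (cut c (Finset.range N₂) u))) +
      (f (T e (cut c (Finset.range N₂) u)) - f (T e a₁))) (f (T e a₁) - f (T e a₀))
  have hG := abs_add_le (f u - f (T e (cut c (Finset.range N₂) u)))
      (f (T e (cut c (Finset.range N₂) u)) - f (T e a₁))
  linarith

/-- The coefficient functionals. -/
theorem exists_coord {e : ℕ → X} (hunc : Unc e)
    (hbas : ∀ x : X, ∃! a : ℕ → ℝ, HasSum (fun n => a n • e n) x) :
    ∃ c : ℕ → StrongDual ℝ X, (∀ x, HasSum (fun n => c n x • e n) x) ∧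
      ∀ (a : ℕ →₀ ℝ) n, c n (T e a) = a n := by
  classical
  choose b hb hb' using hbas
  simp only at hb hb'
  have huniq : ∀ (x : X) (a : ℕ → ℝ), HasSum (fun n => a n • e n) x → b x = a :=
    fun x a h => (hb' x a h).symm
  have hadd : ∀ x y, b (x + y) = b x + b y := by
    intro x y
    apply huniq
    have h1 := (hb x).add (hb y)
    have h2 : (fun n => (b x + b y) n • e n) = fun n => b x n • e n + b y n • e n := by
      funext n
      rw [Pi.add_apply, add_smul]
    rw [h2]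
    exact h1
  have hsmul : ∀ (r : ℝ) x, b (r • x) = r • b x := by
    intro r x
    apply huniq
    have h1 := (hb x).const_smul r
    have h2 : (fun n => (r • b x) n • e n) = fun n => r • (b x n • e n) := by
      funext n
      rw [Pi.smul_apply, smul_eq_mul, smul_smul]
    rw [h2]
    exact h1
  have hT : ∀ a : ℕ →₀ ℝ, b (T e a) = a := by
    intro a
    apply huniq
    rw [T_eq e a subset_rfl]
    apply hasSum_sum_of_ne_finset_zero
    intro n hn
    rw [Finsupp.notMem_support_iff.1 hn, zero_smul]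
  have he : ∀ n, e n ≠ 0 := by
    intro n hn
    have h1 := hT (Finsupp.single n 1)
    have h2 := hT 0
    have h3 : T e (Finsupp.single n 1) = T e 0 := by
      rw [map_zero]
      unfold T
      rw [Finsupp.linearCombination_single, hn, smul_zero]
    rw [h3, h2] at h1
    have h4 := congrFun h1 n
    simp at h4
  have hbound : ∀ n x, ‖b x n‖ ≤ ‖e n‖⁻¹ * ‖x‖ := by
    intro n x
    have hen : 0 < ‖e n‖ := norm_pos_iff.2 (he n)
    rw [inv_mul_eq_div, le_div_iff₀ hen, ← norm_smul]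
    have h1 : Tendsto (fun t : Finset ℕ => ‖∑ n ∈ t, b x n • e n‖) atTop (𝓝 ‖x‖) := (hb x).norm
    refine ge_of_tendsto h1 ?_
    filter_upwards [eventually_ge_atTop {n}] with t ht
    have hnt : n ∈ t := ht (Finset.mem_singleton_self n)
    have h2 := hunc t (b x) (fun k => if k = n then 1 else -1) (fun k => by split_ifs <;> simp)
    have h3 : b x n • e n = (1 / 2 : ℝ) • ((∑ k ∈ t, b x k • e k) +
        ∑ k ∈ t, ((if k = n then 1 else -1) * b x k) • e k) := by
      rw [← Finset.sum_add_distrib, Finset.sum_eq_single n]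
      · rw [if_pos rfl, one_mul, ← two_smul ℝ (b x n • e n), smul_smul]
        norm_num
      · intro k _ hk
        rw [if_neg hk, neg_one_mul, neg_smul, add_neg_cancel]
      · intro h
        exact absurd hnt h
    rw [h3, norm_smul]
    have h4 := norm_add_le (∑ k ∈ t, b x k • e k)
      (∑ k ∈ t, ((if k = n then 1 else -1) * b x k) • e k)
    have h5 : ‖(1 / 2 : ℝ)‖ = 1 / 2 := by norm_num
    rw [h5]
    linarith
  refine ⟨fun n => LinearMap.mkContinuous
    { toFun := fun x => b x n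
      map_add' := fun x y => by rw [hadd]; rfl
      map_smul' := fun r x => by rw [hsmul]; rfl } ‖e n‖⁻¹ (fun x => hbound n x), fun x => hb x,
    fun a n => ?_⟩
  change b (T e a) n = a n
  rw [hT]

end Pool.Agent.T2H09.PiBase
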